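import Pool.Agent.W960.HC.Defs

/-! Project HC (helper960), part C: the limit cycle through a simple fixed point is isolated. -/

set_option autoImplicit false

open Set Topology Filter MeasureTheory

namespace Pool.Agent.W304.HC

open Pool.Agent.W960.HC

/-- solutions inside the ball -/
def Sol (V : ℝ × ℝ → ℝ × ℝ) (R : ℝ) (f : ℝ → ℝ × ℝ) : Prop :=
  Continuous f ∧ ∀ t, ‖f t‖ < R → HasDerivAt f (V (f t)) t

lemma contDiff_fld (a c ε : ℝ) : ContDiff ℝ 1 (fld a c ε) := by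
  unfold fld
  fun_prop

lemma fld_neg (a c ε : ℝ) (p : ℝ × ℝ) : fld a c ε (-p) = -fld a c ε p := by
  unfold fld
  ext
  · simp
  · simp
    ring

lemma Sol.shift {V : ℝ × ℝ → ℝ × ℝ} {R : ℝ} {f : ℝ → ℝ × ℝ} (h : Sol V R f) (s : ℝ) :
    Sol V R (fun t => f (t + s)) :=
  ⟨h.1.comp (by fun_prop), fun t ht => (h.2 (t + s) ht).comp_add_const t s⟩

lemma Sol.neg {V : ℝ × ℝ → ℝ × ℝ} (hV : ∀ p, V (-p) = -V p) {R : ℝ} {f : ℝ → ℝ × ℝ}
    (h : Sol V R f) : Sol V R (fun t => -f t) :=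
  ⟨h.1.neg, fun t ht => by
    rw [hV]
    exact (h.2 t (by simpa using ht)).neg⟩

lemma local_uniq {V : ℝ × ℝ → ℝ × ℝ} (hV : ContDiff ℝ 1 V) {R : ℝ} {f g : ℝ → ℝ × ℝ}
    (hf : Sol V R f) (hg : Sol V R g) {t : ℝ} (h : f t = g t) (ht : ‖f t‖ < R) :
    f =ᶠ[𝓝 t] g := by
  obtain ⟨K, s, hs, hK⟩ := (hV.contDiffAt (x := f t)).exists_lipschitzOnWith
  have h1 : ∀ᶠ z in 𝓝 (f t), ‖z‖ < R :=
    (continuous_norm.continuousAt).eventually_lt continuousAt_const ht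
  refine ODE_solution_unique_of_eventually (v := fun _ => V) (s := fun _ => s) (K := K)
    (Eventually.of_forall fun _ => hK) ?_ ?_ h
  · filter_upwards [hf.1.continuousAt.eventually h1, hf.1.continuousAt.eventually hs] with x hx hx2
    exact ⟨hf.2 x hx, hx2⟩
  · rw [h] at h1 hs
    filter_upwards [hg.1.continuousAt.eventually h1, hg.1.continuousAt.eventually hs] with x hx hx2
    exact ⟨hg.2 x hx, hx2⟩

/-- global uniqueness on a connected set of times -/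
lemma uniq {V : ℝ × ℝ → ℝ × ℝ} (hV : ContDiff ℝ 1 V) {R : ℝ} {f g : ℝ → ℝ × ℝ}
    (hf : Sol V R f) (hg : Sol V R g) {s : Set ℝ} (hs : IsPreconnected s)
    (hb : ∀ t ∈ s, ‖f t‖ < R) {t₀ : ℝ} (ht₀ : t₀ ∈ s) (h : f t₀ = g t₀) : ∀ t ∈ s, f t = g t := by
  have hopen : IsOpen {t | f =ᶠ[𝓝 t] g} := isOpen_setOfPred_eventually_nhds
  have hopen2 : IsOpen {t | f t ≠ g t} := isOpen_ne_fun hf.1 hg.1
  have hsub := IsPreconnected.subset_left_of_subset_union hopen hopen2 ?_ ?_ ?_ hs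
  · intro t ht
    exact (hsub ht).self_of_nhds
  · rw [Set.disjoint_left]
    intro t h1 h2
    exact h2 h1.self_of_nhds
  · intro t ht
    by_cases h1 : f t = g t
    · exact Or.inl (local_uniq hV hf hg h1 (hb t ht))
    · exact Or.inr h1
  · exact ⟨t₀, ht₀, local_uniq hV hf hg h (hb t₀ ht₀)⟩

/-! `et` -/

lemma kp_anti : StrictAntiOn kp (Ici 0) := by
  have hd : ∀ x : ℝ, HasDerivAt kp (-(2 * x ^ 3 * Real.exp (-x ^ 2))) x := by
    intro x
    unfold kp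
    have h1 : HasDerivAt (fun x : ℝ => -x ^ 2) (-(2 * x)) x := by
      simpa using (hasDerivAt_pow 2 x).fun_neg
    have h2 : HasDerivAt (fun x : ℝ => 1 + x ^ 2) (2 * x) x := by
      simpa using (hasDerivAt_pow 2 x).const_add 1
    exact (h1.exp.fun_mul h2).congr_deriv (by ring)
  apply strictAntiOn_of_deriv_neg (convex_Ici 0)
  · exact fun x _ => (hd x).continuousAt.continuousWithinAt
  · intro x hx
    rw [interior_Ici] at hx
    rw [(hd x).deriv]
    have hx' : 0 < x := hx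
    have := Real.exp_pos (-x ^ 2)
    have : 0 < 2 * x ^ 3 * Real.exp (-x ^ 2) := by positivity
    linarith

lemma kp_le_one {x : ℝ} (hx : 0 ≤ x) : kp x ≤ 1 := by
  have h := kp_anti.antitoneOn (show (0:ℝ) ∈ Ici 0 by simp) (show x ∈ Ici 0 from hx) hx
  have : kp 0 = 1 := by simp [kp]
  rwa [this] at h

lemma et_lt {x y : ℝ} (hx : 0 ≤ x) (hxy : x < y) : et x < et y := by
  unfold et
  apply Real.sqrt_lt_sqrt
  · linarith [kp_le_one hx]
  · have := kp_anti (show x ∈ Ici 0 from hx) (show y ∈ Ici 0 from (hx.trans hxy.le)) hxy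
    linarith

lemma et_continuous : Continuous et := by
  unfold et kp
  fun_prop

/-! closed orbits -/

lemma closed_neg {V : ℝ × ℝ → ℝ × ℝ} (hV : ∀ p, V (-p) = -V p) {D : Set (ℝ × ℝ)}
    (hD : D ∈ Closed V) : {z | -z ∈ D} ∈ Closed V := by
  obtain ⟨γ, T, hT, hd, hp, ⟨t, ht⟩, rfl⟩ := hD
  refine ⟨fun t => -γ t, T, hT, ?_, ?_, ⟨t, ?_⟩, ?_⟩
  · intro t
    rw [hV]
    exact (hd t).fun_neg
  · intro t
    simp only [hp t]
  · simpa using ht
  · ext z
    simp only [mem_ofPred_eq, mem_range]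
    constructor
    · rintro ⟨y, hy⟩
      exact ⟨y, by rw [hy, neg_neg]⟩
    · rintro ⟨y, rfl⟩
      exact ⟨y, by rw [neg_neg]⟩

lemma closed_sol {V : ℝ × ℝ → ℝ × ℝ} {R : ℝ} {D : Set (ℝ × ℝ)} (hD : D ∈ Closed V) :
    ∃ γ : ℝ → ℝ × ℝ, Sol V R γ ∧ D = range γ := by
  obtain ⟨γ, T, hT, hd, hp, ⟨t, ht⟩, rfl⟩ := hD
  exact ⟨γ, ⟨continuous_iff_continuousAt.2 fun t => (hd t).continuousAt, fun t _ => hd t⟩, rfl⟩

lemma closed_isClosed {V : ℝ × ℝ → ℝ × ℝ} {D : Set (ℝ × ℝ)} (hD : D ∈ Closed V) : IsClosed D := by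
  obtain ⟨γ, T, hT, hd, hp, ⟨t, ht⟩, rfl⟩ := hD
  have hper : Function.Periodic γ T := hp
  exact (hper.compact_of_continuous hT.ne'
    (continuous_iff_continuousAt.2 fun t => (hd t).continuousAt)).isClosed

/-- a piece of trajectory in the ball which meets a closed orbit is in it -/
lemma trans {V : ℝ × ℝ → ℝ × ℝ} (hV : ContDiff ℝ 1 V) {R : ℝ} {f : ℝ → ℝ × ℝ} (hf : Sol V R f)
    {D : Set (ℝ × ℝ)} (hD : D ∈ Closed V) {s : Set ℝ} (hs : IsPreconnected s)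
    (hb : ∀ t ∈ s, ‖f t‖ < R) {t₀ : ℝ} (ht₀ : t₀ ∈ s) (h : f t₀ ∈ D) : ∀ t ∈ s, f t ∈ D := by
  obtain ⟨γ, hγ, rfl⟩ := closed_sol (R := R) hD
  obtain ⟨u, hu⟩ := h
  intro t ht
  have h2 := uniq hV hf (hγ.shift (u - t₀)) hs hb ht₀ (by
    show f t₀ = γ (t₀ + (u - t₀))
    rw [← hu]; congr 1; ring) t ht
  exact ⟨t + (u - t₀), h2.symm⟩

lemma meet {V : ℝ × ℝ → ℝ × ℝ} (hV : ContDiff ℝ 1 V) {R : ℝ} {f : ℝ → ℝ × ℝ} (hf : Sol V R f)
    (hb : ∀ t, ‖f t‖ < R) {D : Set (ℝ × ℝ)} (hD : D ∈ Closed V) {t₀ : ℝ} (h : f t₀ ∈ D) :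
    D = range f := by
  obtain ⟨γ, hγ, rfl⟩ := closed_sol (R := R) hD
  obtain ⟨u, hu⟩ := h
  have key : ∀ t, f t = γ (t + (u - t₀)) := fun t =>
    uniq hV hf (hγ.shift (u - t₀)) isPreconnected_univ (fun t _ => hb t) (mem_univ t₀) (by
      show f t₀ = γ (t₀ + (u - t₀))
      rw [← hu]; congr 1; ring) t (mem_univ t)
  ext z
  constructor
  · rintro ⟨t, rfl⟩
    exact ⟨t - (u - t₀), by rw [key]; congr 1; ring⟩
  · rintro ⟨t, rfl⟩
    exact ⟨t + (u - t₀), (key t).symm⟩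

/-- the monotone argument on the cross section -/
lemma mono_arg {X r : ℝ} (hr : 0 < r) (hX : 0 ≤ X - r) {y : ℝ → ℝ}
    (hyc : ContinuousOn y (Ioo (X - r) (X + r)))
    (hym : ∀ x ∈ Ioo (X - r) (X + r), ∀ x' ∈ Ioo (X - r) (X + r), x < x' → y x < y x')
    (hyX : y X = et X) (hne : ∀ x ∈ Ioo (X - r) (X + r), x ≠ X → y x ≠ et x)
    {Dh : Set (ℝ × ℝ)} (hDh : IsClosed Dh)
    (hfwd : ∀ x ∈ Ioo (X - r) (X + r), ((0, et x) : ℝ × ℝ) ∈ Dh → ((0, y x) : ℝ × ℝ) ∈ Dh)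
    (hbwd : ∀ x ∈ Ioo (X - r) (X + r), ((0, y x) : ℝ × ℝ) ∈ Dh → ((0, et x) : ℝ × ℝ) ∈ Dh)
    {x₀ : ℝ} (hx₀ : x₀ ∈ Icc (X - r / 2) (X + r / 2)) (h : ((0, et x₀) : ℝ × ℝ) ∈ Dh) :
    ((0, et X) : ℝ × ℝ) ∈ Dh := by
  by_contra hXD
  have hsetc : ∀ u v : ℝ, IsCompact {x | x ∈ Icc u v ∧ ((0, et x) : ℝ × ℝ) ∈ Dh} := by
    intro u v
    have h1 : IsClosed {x : ℝ | ((0, et x) : ℝ × ℝ) ∈ Dh} :=
      hDh.preimage (continuous_const.prodMk et_continuous)
    exact isCompact_Icc.inter_right h1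
  have hin : ∀ x, X - r / 2 ≤ x → x ≤ X + r / 2 → x ∈ Ioo (X - r) (X + r) := fun x h1 h2 =>
    ⟨by linarith, by linarith⟩
  have hXin : X ∈ Ioo (X - r) (X + r) := ⟨by linarith, by linarith⟩
  have hetmono : ∀ x x' : ℝ, 0 ≤ x → x < x' → et x < et x' := fun x x' => et_lt
  rcases lt_trichotomy x₀ X with hlt | heq | hgt
  · -- left
    obtain ⟨m, ⟨⟨hm1, hm2⟩, hmD⟩, hmax⟩ := (hsetc (X - r / 2) X).exists_isGreatest
      ⟨x₀, ⟨hx₀.1, hlt.le⟩, h⟩
    have hmX : m < X := lt_of_le_of_ne hm2 (by rintro rfl; exact hXD hmD)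
    have hmin : m ∈ Ioo (X - r) (X + r) := hin m hm1 (by linarith)
    have hlater : ∀ x, m < x → x ≤ X → ((0, et x) : ℝ × ℝ) ∉ Dh := by
      intro x h1 h2 h3
      have := hmax (show x ∈ {x | x ∈ Icc (X - r / 2) X ∧ ((0, et x) : ℝ × ℝ) ∈ Dh} from
        ⟨⟨by linarith, h2⟩, h3⟩)
      linarith
    have hym1 : y m < et X := by rw [← hyX]; exact hym m hmin X hXin hmX
    rcases lt_trichotomy (y m) (et m) with h1 | h1 | h1
    · -- y m < et m < et X = y X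
      have h2 : et m ∈ Icc (y m) (y X) := ⟨h1.le, by rw [hyX]; exact (hetmono m X (by linarith) hmX).le⟩
      obtain ⟨x, hx, hxy⟩ := intermediate_value_Icc hmX.le
        (hyc.mono (fun x hx => ⟨by linarith [hx.1], by linarith [hx.2]⟩)) h2
      have hxm : m < x := by
        rcases lt_or_eq_of_le hx.1 with h3 | h3
        · exact h3
        · rw [← h3] at hxy; linarith
      exact hlater x hxm hx.2 (hbwd x ⟨by linarith [hx.1], by linarith [hx.2]⟩ (by rw [hxy]; exact hmD))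
    · exact hne m hmin hmX.ne h1
    · have h2 : y m ∈ Icc (et m) (et X) := ⟨h1.le, hym1.le⟩
      obtain ⟨x, hx, hxy⟩ := intermediate_value_Icc hmX.le et_continuous.continuousOn h2
      have hxm : m < x := by
        rcases lt_or_eq_of_le hx.1 with h3 | h3
        · exact h3
        · rw [← h3] at hxy; linarith
      exact hlater x hxm hx.2 (by rw [hxy]; exact hfwd m hmin hmD)
  · exact hXD (by rw [← heq]; exact h)
  · -- right
    obtain ⟨m, ⟨⟨hm1, hm2⟩, hmD⟩, hmin'⟩ := (hsetc X (X + r / 2)).exists_isLeast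
      ⟨x₀, ⟨hgt.le, hx₀.2⟩, h⟩
    have hmX : X < m := lt_of_le_of_ne hm1 (by rintro rfl; exact hXD hmD)
    have hmin : m ∈ Ioo (X - r) (X + r) := hin m (by linarith) hm2
    have hlater : ∀ x, x < m → X ≤ x → ((0, et x) : ℝ × ℝ) ∉ Dh := by
      intro x h1 h2 h3
      have := hmin' (show x ∈ {x | x ∈ Icc X (X + r / 2) ∧ ((0, et x) : ℝ × ℝ) ∈ Dh} from
        ⟨⟨h2, by linarith⟩, h3⟩)
      linarith
    have hym1 : et X < y m := by rw [← hyX]; exact hym X hXin m hmin hmX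
    rcases lt_trichotomy (y m) (et m) with h1 | h1 | h1
    · have h2 : y m ∈ Icc (et X) (et m) := ⟨hym1.le, h1.le⟩
      obtain ⟨x, hx, hxy⟩ := intermediate_value_Icc hmX.le et_continuous.continuousOn h2
      have hxm : x < m := by
        rcases lt_or_eq_of_le hx.2 with h3 | h3
        · exact h3
        · rw [h3] at hxy; linarith
      exact hlater x hxm hx.1 (by rw [hxy]; exact hfwd m hmin hmD)
    · exact hne m hmin hmX.ne' h1
    · have h2 : et m ∈ Icc (y X) (y m) := ⟨by rw [hyX]; exact (hetmono X m (by linarith) hmX).le, h1.le⟩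
      obtain ⟨x, hx, hxy⟩ := intermediate_value_Icc hmX.le
        (hyc.mono (fun x hx => ⟨by linarith [hx.1], by linarith [hx.2]⟩)) h2
      have hxm : x < m := by
        rcases lt_or_eq_of_le hx.2 with h3 | h3
        · exact h3
        · rw [h3] at hxy; linarith
      exact hlater x hxm hx.1 (hbwd x ⟨by linarith [hx.1], by linarith [hx.2]⟩ (by rw [hxy]; exact hmD))

theorem isolated {a c R X₀ : ℝ} {Z : ℝ → ℝ × ℝ → ℝ → ℝ × ℝ} {W : ℝ → ℝ × ℝ → ℝ → ℝ}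
    (h : Flw a c R Z W) {τ : ℝ × ℝ → ℝ} {δ : ℝ} (hh : Half a c R X₀ Z W τ δ)
    {ε X r : ℝ} (hε : 0 < ε) (hεδ : ε < δ) (hr : 0 < r) (h1 : X₀ - δ < X - r)
    (h2 : X + r < X₀ + δ) (hfix : Z (τ (X, ε)) (0, et X) ε = (0, -et X))
    (huniq : ∀ X' ∈ Ioo (X - r) (X + r), X' ≠ X → Z (τ (X', ε)) (0, et X') ε ≠ (0, -et X'))
    (hmono : ∀ X' ∈ Ioo (X - r) (X + r), ∀ X'' ∈ Ioo (X - r) (X + r), X' < X'' →
        (Z (τ (X'', ε)) (0, et X'') ε).2 < (Z (τ (X', ε)) (0, et X') ε).2) :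
    ∃ C ∈ Cyc (fld a c ε), (0, et X) ∈ C ∧ ∀ z ∈ C, ∃ t ∈ Icc 0 (τ (X, ε)),
      z = Z t (0, et X) ε ∨ z = -Z t (0, et X) ε := by
  have hδ1 := hh.hδ1
  have hδ0 := hh.hδ0
  have hε1 : |ε| < 1 := by rw [abs_of_pos hε]; linarith
  have hεI : ε ∈ Ioo (-δ) δ := ⟨by linarith, hεδ⟩
  have hI : ∀ x ∈ Ioo (X - r) (X + r), x ∈ Ioo (X₀ - δ) (X₀ + δ) := fun x hx =>
    ⟨by linarith [hx.1], by linarith [hx.2]⟩
  have hXI : X ∈ Ioo (X - r) (X + r) := ⟨by linarith, by linarith⟩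
  have hV := contDiff_fld a c ε
  have hVn := fld_neg a c ε
  have hZc : Continuous fun q : ℝ × (ℝ × ℝ) => Z q.1 q.2 ε := by
    have e : (fun q : ℝ × (ℝ × ℝ) => Z q.1 q.2 ε) =
        (fun q : ℝ × (ℝ × ℝ) × ℝ => Z q.1 q.2.1 q.2.2) ∘
          (fun q : ℝ × (ℝ × ℝ) => ((q.1, q.2, ε) : ℝ × (ℝ × ℝ) × ℝ)) := rfl
    rw [e]
    exact h.smZ.continuous.comp (by fun_prop)
  have hSol : ∀ q : ℝ × ℝ, Sol (fld a c ε) R (fun t => Z t q ε) := fun q =>
    ⟨hZc.comp (by fun_prop : Continuous fun t : ℝ => ((t, q) : ℝ × (ℝ × ℝ))),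
      fun t ht => h.der q ε t ht hε1⟩
  set p0 : ℝ × ℝ := (0, et X) with hp0
  set T : ℝ := τ (X, ε) with hT
  have hTpos : 0 < T := hh.pos X (hI X hXI) ε hεI
  have hballT : ∀ t ∈ Icc 0 T, ‖Z t p0 ε‖ < R := hh.ball X (hI X hXI) ε hεI
  have hnegp0 : ((0, -et X) : ℝ × ℝ) = -p0 := by rw [hp0]; simp
  have hZT : Z T p0 ε = -p0 := by rw [← hnegp0]; exact hfix
  have hetX : 0 < et X := by
    have := hh.neg X (hI X hXI) ε hεI
    rw [← hp0, ← hT, hZT, hp0] at this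
    simpa using this
  set γ : ℝ → ℝ × ℝ := fun t => Z t p0 ε with hγ
  have hγ0 : γ 0 = p0 := h.zero p0 ε
  have hγT : γ T = -p0 := hZT
  have hanti0 : ∀ t ∈ Icc 0 T, -γ t = γ (t + T) := by
    refine uniq hV ((hSol p0).neg hVn) ((hSol p0).shift T) isPreconnected_Icc ?_
      (left_mem_Icc.2 hTpos.le) ?_
    · intro t ht
      rw [norm_neg]
      exact hballT t ht
    · show -γ 0 = γ (0 + T)
      rw [zero_add, hγ0, hγT]
  have hγ2T : γ (2 * T) = p0 := by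
    have := hanti0 T (right_mem_Icc.2 hTpos.le)
    rw [hγT, neg_neg] at this
    rw [two_mul]
    exact this.symm
  have hper : Function.Periodic γ (2 * T) := by
    intro t
    show Z (t + 2 * T) p0 ε = Z t p0 ε
    rw [h.add]
    have : Z (2 * T) p0 ε = p0 := hγ2T
    rw [this]
  have hball2 : ∀ t ∈ Icc 0 (2 * T), ‖γ t‖ < R := by
    intro t ht
    by_cases hc : t ≤ T
    · exact hballT t ⟨ht.1, hc⟩
    · push Not at hc
      have := hanti0 (t - T) ⟨by linarith, by linarith [ht.2]⟩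
      rw [sub_add_cancel] at this
      rw [← this, norm_neg]
      exact hballT _ ⟨by linarith, by linarith [ht.2]⟩
  have hball : ∀ t, ‖γ t‖ < R := by
    intro t
    obtain ⟨y, hy, hty⟩ := hper.exists_mem_Ico₀ (by linarith) t
    rw [hty]
    exact hball2 y ⟨hy.1, hy.2.le⟩
  have hanti : ∀ t, γ (t + T) = -γ t := by
    intro t
    have := uniq hV ((hSol p0).neg hVn) ((hSol p0).shift T) isPreconnected_univ
      (fun t _ => by rw [norm_neg]; exact hball t) (mem_univ 0) (by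
        show -γ 0 = γ (0 + T)
        rw [zero_add, hγ0, hγT]) t (mem_univ t)
    exact this.symm
  have hder : ∀ t, HasDerivAt γ (fld a c ε (γ t)) t := fun t => (hSol p0).2 t (hball t)
  have hCclosed : range γ ∈ Closed (fld a c ε) := by
    refine ⟨γ, 2 * T, by linarith, hder, hper, ⟨T, ?_⟩, rfl⟩
    rw [hγT, hγ0, hp0]
    intro he
    have := congrArg Prod.snd he
    simp at this
    linarith
  have hCneg : ∀ z ∈ range γ, -z ∈ range γ := by
    rintro z ⟨t, rfl⟩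
    exact ⟨t + T, hanti t⟩
  -- a closed orbit through `±p0`
  have hthrough : ∀ D ∈ Closed (fld a c ε), (p0 ∈ D ∨ -p0 ∈ D) → D = range γ := by
    rintro D hD (hp | hp)
    · exact meet hV (hSol p0) hball hD (t₀ := 0) (by rw [h.zero]; exact hp)
    · exact meet hV (hSol p0) hball hD (t₀ := T) (by rw [hZT]; exact hp)
  -- the return map
  set y : ℝ → ℝ := fun x => -(Z (τ (x, ε)) (0, et x) ε).2 with hy
  have hret : ∀ x ∈ Ioo (X - r) (X + r), Z (τ (x, ε)) (0, et x) ε = (0, -y x) := by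
    intro x hx
    have := hh.hit x (hI x hx) ε hεI
    ext
    · exact this
    · simp [hy]
  have hyc : ContinuousOn y (Ioo (X - r) (X + r)) := by
    have hτ : ContinuousOn (fun x : ℝ => τ (x, ε)) (Ioo (X - r) (X + r)) := by
      refine hh.smooth.continuousOn.comp (by fun_prop) ?_
      intro x hx
      exact ⟨hI x hx, hεI⟩
    have hpair : ContinuousOn (fun x : ℝ => ((τ (x, ε), (0, et x)) : ℝ × (ℝ × ℝ)))
        (Ioo (X - r) (X + r)) :=
      hτ.prodMk (continuous_const.prodMk et_continuous).continuousOn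
    have := hZc.comp_continuousOn hpair
    exact (continuous_snd.comp_continuousOn this).neg
  have hym : ∀ x ∈ Ioo (X - r) (X + r), ∀ x' ∈ Ioo (X - r) (X + r), x < x' → y x < y x' := by
    intro x hx x' hx' hlt
    have := hmono x hx x' hx' hlt
    simp only [hy]
    linarith
  have hyX : y X = et X := by
    simp only [hy]
    rw [hfix]
    simp
  have hne : ∀ x ∈ Ioo (X - r) (X + r), x ≠ X → y x ≠ et x := by
    intro x hx hxX he
    apply huniq x hx hxX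
    rw [hret x hx, he]
  have hXr : 0 ≤ X - r := by linarith
  -- main claim on closed orbits
  have hkey : ∀ D ∈ Closed (fld a c ε), ∀ x₀ ∈ Icc (X - r / 2) (X + r / 2),
      ((0, et x₀) : ℝ × ℝ) ∈ D → D = range γ := by
    intro D hD x₀ hx₀ hxD
    have hDn := closed_neg hVn hD
    set Dh : Set (ℝ × ℝ) := {z | z ∈ D ∨ -z ∈ D} with hDh
    have hDhc : IsClosed Dh := (closed_isClosed hD).union (closed_isClosed hDn)
    have hDhneg : ∀ z ∈ Dh, -z ∈ Dh := by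
      rintro z (hz | hz)
      · right; rwa [neg_neg]
      · left; exact hz
    have htr : ∀ (f : ℝ → ℝ × ℝ), Sol (fld a c ε) R f → ∀ (s : Set ℝ), IsPreconnected s →
        (∀ t ∈ s, ‖f t‖ < R) → ∀ t₀ ∈ s, f t₀ ∈ Dh → ∀ t ∈ s, f t ∈ Dh := by
      intro f hf s hs hb t₀ ht₀ hft t ht
      rcases hft with hft | hft
      · left
        exact trans hV hf hD hs hb ht₀ hft t ht
      · right
        exact trans hV hf hDn hs hb ht₀ hft t ht
    have hgoal : ((0, et X) : ℝ × ℝ) ∈ Dh := by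
      refine mono_arg hr hXr hyc hym hyX hne hDhc ?_ ?_ hx₀ (Or.inl hxD)
      · intro x hx hxin
        have hτ0 := hh.pos x (hI x hx) ε hεI
        have h3 := htr _ (hSol (0, et x)) (Icc 0 (τ (x, ε))) isPreconnected_Icc
          (hh.ball x (hI x hx) ε hεI) 0 (left_mem_Icc.2 hτ0.le) (by rw [h.zero]; exact hxin)
          (τ (x, ε)) (right_mem_Icc.2 hτ0.le)
        rw [hret x hx] at h3
        have h4 := hDhneg _ h3
        simpa using h4
      · intro x hx hxin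
        have hτ0 := hh.pos x (hI x hx) ε hεI
        have h3 := hDhneg _ hxin
        have h4 : (-(0, y x) : ℝ × ℝ) = Z (τ (x, ε)) (0, et x) ε := by
          rw [hret x hx]; simp
        rw [h4] at h3
        have h5 := htr _ (hSol (0, et x)) (Icc 0 (τ (x, ε))) isPreconnected_Icc
          (hh.ball x (hI x hx) ε hεI) (τ (x, ε)) (right_mem_Icc.2 hτ0.le) h3
          0 (left_mem_Icc.2 hτ0.le)
        rwa [h.zero] at h5
    exact hthrough D hD hgoal
  -- points near `p0`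
  have hnear : ∀ᶠ v in 𝓝 p0, ∀ D ∈ Closed (fld a c ε), v ∈ D → D = range γ := by
    have hRp : ‖p0‖ < R := by rw [← hγ0]; exact hball 0
    have hNopen : IsOpen {z : ℝ × ℝ | ‖z‖ < R ∧ et (X - r / 2) < z.2 ∧ z.2 < et (X + r / 2)} := by
      refine (isOpen_lt continuous_norm continuous_const).inter
        ((isOpen_lt continuous_const continuous_snd).inter
          (isOpen_lt continuous_snd continuous_const))
    have hp0N : p0 ∈ {z : ℝ × ℝ | ‖z‖ < R ∧ et (X - r / 2) < z.2 ∧ z.2 < et (X + r / 2)} := by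
      refine ⟨hRp, ?_, ?_⟩
      · exact et_lt (by linarith) (by linarith)
      · exact et_lt (by linarith) (by linarith)
    have hev : ∀ᶠ q : ℝ × (ℝ × ℝ) in 𝓝 (0, p0),
        Z q.1 q.2 ε ∈ {z : ℝ × ℝ | ‖z‖ < R ∧ et (X - r / 2) < z.2 ∧ z.2 < et (X + r / 2)} := by
      have hc : ContinuousAt (fun q : ℝ × (ℝ × ℝ) => Z q.1 q.2 ε) (0, p0) := hZc.continuousAt
      apply hc.eventually
      apply hNopen.mem_nhds
      show Z 0 p0 ε ∈ _
      rw [h.zero]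
      exact hp0N
    obtain ⟨η, hη, hηb⟩ := Metric.eventually_nhds_iff.1 hev
    set ρ : ℝ := min η T / 2 with hρ
    have hρ0 : 0 < ρ := by rw [hρ]; have := lt_min hη hTpos; linarith
    have hρη : ρ < η := by
      rw [hρ]; have := min_le_left η T; have := lt_min hη hTpos; linarith
    have hρT : ρ < T := by
      rw [hρ]; have := min_le_right η T; have := lt_min hη hTpos; linarith
    have hpos : 0 < (Z ρ p0 ε).1 := hh.side X (hI X hXI) ε hεI ρ ⟨hρ0, hρT⟩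
    have hneg : (Z (-ρ) p0 ε).1 < 0 := by
      have h3 := hanti (-ρ)
      have h4 : 0 < (Z (-ρ + T) p0 ε).1 :=
        hh.side X (hI X hXI) ε hεI (-ρ + T) ⟨by linarith, by linarith⟩
      have h5 : Z (-ρ + T) p0 ε = -Z (-ρ) p0 ε := h3
      rw [h5] at h4
      simpa using h4
    have hcρ : ∀ s : ℝ, Continuous fun v : ℝ × ℝ => (Z s v ε).1 := fun s =>
      continuous_fst.comp (hZc.comp (by fun_prop : Continuous fun v : ℝ × ℝ => ((s, v) : ℝ × (ℝ × ℝ))))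
    have e1 : ∀ᶠ v in 𝓝 p0, 0 < (Z ρ v ε).1 :=
      continuousAt_const.eventually_lt (hcρ ρ).continuousAt hpos
    have e2 : ∀ᶠ v in 𝓝 p0, (Z (-ρ) v ε).1 < 0 :=
      (hcρ (-ρ)).continuousAt.eventually_lt continuousAt_const hneg
    have e3 : ∀ᶠ v in 𝓝 p0, dist v p0 < η := Metric.ball_mem_nhds p0 hη
    filter_upwards [e1, e2, e3] with v hv1 hv2 hv3 D hD hvD
    have hN : ∀ s ∈ Icc (-ρ) ρ,
        Z s v ε ∈ {z : ℝ × ℝ | ‖z‖ < R ∧ et (X - r / 2) < z.2 ∧ z.2 < et (X + r / 2)} := by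
      intro s hs
      refine hηb (y := ((s, v) : ℝ × (ℝ × ℝ))) ?_
      rw [Prod.dist_eq]
      apply max_lt _ hv3
      rw [Real.dist_eq, sub_zero]
      exact lt_of_le_of_lt (abs_le.2 hs) hρη
    have hcs : ContinuousOn (fun s : ℝ => (Z s v ε).1) (Icc (-ρ) ρ) :=
      (continuous_fst.comp (hSol v).1).continuousOn
    obtain ⟨s, hs, hs0⟩ := intermediate_value_Icc (by linarith) hcs
      (show (0 : ℝ) ∈ Icc ((Z (-ρ) v ε).1) ((Z ρ v ε).1) from ⟨hv2.le, hv1.le⟩)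
    have hsD : Z s v ε ∈ D :=
      trans hV (hSol v) hD isPreconnected_Icc (fun t ht => (hN t ht).1)
        (t₀ := 0) ⟨by linarith, by linarith⟩ (by rw [h.zero]; exact hvD) s hs
    obtain ⟨-, hlo, hhi⟩ := hN s hs
    obtain ⟨x₀, hx₀, hx₀e⟩ := intermediate_value_Icc (by linarith : X - r / 2 ≤ X + r / 2)
      et_continuous.continuousOn (show (Z s v ε).2 ∈ Icc (et (X - r / 2)) (et (X + r / 2)) from
        ⟨hlo.le, hhi.le⟩)
    apply hkey D hD x₀ hx₀
    have : ((0, et x₀) : ℝ × ℝ) = Z s v ε := by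
      ext
      · exact hs0.symm
      · exact hx₀e
    rw [this]
    exact hsD
  have htube : ∀ᶠ v in 𝓝 p0, ∀ t ∈ Icc 0 (2 * T), ‖Z t v ε‖ < R := by
    apply isCompact_Icc.eventually_forall_of_forall_eventually
    intro t ht
    have hc : ContinuousAt (fun q : (ℝ × ℝ) × ℝ => ‖Z q.2 q.1 ε‖) (p0, t) := by
      have : Continuous fun q : (ℝ × ℝ) × ℝ => Z q.2 q.1 ε :=
        hZc.comp (by fun_prop : Continuous fun q : (ℝ × ℝ) × ℝ => ((q.2, q.1) : ℝ × (ℝ × ℝ)))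
      exact this.norm.continuousAt
    exact hc.eventually_lt continuousAt_const (hball t)
  obtain ⟨V0, hV0, hV0o, hp0V⟩ := eventually_nhds_iff.1 (hnear.and htube)
  refine ⟨range γ, ⟨hCclosed, {z | ∃ t ∈ Icc 0 (2 * T), Z (-t) z ε ∈ V0}, ?_, ?_, ?_⟩,
    ⟨0, hγ0⟩, ?_⟩
  · have : {z | ∃ t ∈ Icc 0 (2 * T), Z (-t) z ε ∈ V0} =
        ⋃ t ∈ Icc 0 (2 * T), (fun z => Z (-t) z ε) ⁻¹' V0 := by
      ext z; simp
    rw [this]
    refine isOpen_biUnion fun t _ => hV0o.preimage ?_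
    exact hZc.comp (by fun_prop : Continuous fun z : ℝ × ℝ => ((-t, z) : ℝ × (ℝ × ℝ)))
  · rintro z ⟨s, rfl⟩
    obtain ⟨u, hu, hsu⟩ := hper.exists_mem_Ico₀ (by linarith) s
    refine ⟨u, ⟨hu.1, hu.2.le⟩, ?_⟩
    rw [hsu]
    show Z (-u) (Z u p0 ε) ε ∈ V0
    rw [← h.add, neg_add_cancel, h.zero]
    exact hp0V
  · rintro D hD ⟨z, hzD, t, ht, htV⟩
    obtain ⟨hg, hb⟩ := hV0 _ htV
    apply hg D hD
    have hz : Z t (Z (-t) z ε) ε = z := by rw [← h.add, add_neg_cancel, h.zero]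
    have h3 := trans hV (hSol (Z (-t) z ε)) hD isPreconnected_Icc hb ht (by rw [hz]; exact hzD)
      0 (left_mem_Icc.2 (by linarith))
    rwa [h.zero] at h3
  · rintro z ⟨s, rfl⟩
    obtain ⟨u, hu, hsu⟩ := hper.exists_mem_Ico₀ (by linarith) s
    by_cases hc : u ≤ T
    · exact ⟨u, ⟨hu.1, hc⟩, Or.inl hsu⟩
    · push Not at hc
      refine ⟨u - T, ⟨by linarith, by linarith [hu.2]⟩, Or.inr ?_⟩
      have h3 := hanti (u - T)
      rw [sub_add_cancel] at h3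
      rw [hsu, h3]

end Pool.Agent.W304.HC
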