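import Pool.Agent.W550.LG.StmV

/-!
# Laugwitz' problem, Part V, Lemma B: a weakly monotone triple
-/

open Set

namespace Pool.Agent.W304.LGLB

open Pool.Agent.W550.LG

theorem deriv_nonneg {Lam lam : ℝ → ℝ} (hL : ∀ s, HasDerivAt Lam (lam s) s) {x y : ℝ}
    (hxy : x < y) (hm : ∀ r s, x ≤ r → r ≤ s → s ≤ y → Lam r ≤ Lam s) :
    ∀ s ∈ Icc x y, 0 ≤ lam s := by
  intro s hs
  have h1 : MonotoneOn Lam (Icc x y) := fun r hr s hs hrs => hm r s hr.1 hrs hs.2
  have h2 : derivWithin Lam (Icc x y) s = lam s :=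
    ((hL s).hasDerivWithinAt).derivWithin (uniqueDiffOn_Icc hxy s hs)
  rw [← h2]
  exact h1.derivWithin_nonneg

theorem deriv_nonpos {Lam lam : ℝ → ℝ} (hL : ∀ s, HasDerivAt Lam (lam s) s) {x y : ℝ}
    (hxy : x < y) (hm : ∀ r s, x ≤ r → r ≤ s → s ≤ y → Lam s ≤ Lam r) :
    ∀ s ∈ Icc x y, lam s ≤ 0 := by
  intro s hs
  have h1 : AntitoneOn Lam (Icc x y) := fun r hr s hs hrs => hm r s hr.1 hrs hs.2
  have h2 : derivWithin Lam (Icc x y) s = lam s :=
    ((hL s).hasDerivWithinAt).derivWithin (uniqueDiffOn_Icc hxy s hs)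
  rw [← h2]
  exact h1.derivWithin_nonpos

theorem deriv_zero {Lam lam : ℝ → ℝ} (hL : ∀ s, HasDerivAt Lam (lam s) s) {x y : ℝ}
    (hxy : x < y) (hm : ∀ s ∈ Icc x y, Lam s = Lam x) :
    ∀ s ∈ Icc x y, lam s = 0 := by
  intro s hs
  refine le_antisymm (deriv_nonpos hL hxy ?_ s hs) (deriv_nonneg hL hxy ?_ s hs)
  · intro r s h1 h2 h3
    rw [hm r ⟨h1, h2.trans h3⟩, hm s ⟨h1.trans h2, h3⟩]
  · intro r s h1 h2 h3
    rw [hm r ⟨h1, h2.trans h3⟩, hm s ⟨h1.trans h2, h3⟩]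

theorem first_eq {Lam : ℝ → ℝ} (hc : Continuous Lam) {x y : ℝ} (v : ℝ)
    (hne : ∃ s ∈ Icc x y, Lam s = v) :
    ∃ m ∈ Icc x y, Lam m = v ∧ ∀ s ∈ Icc x y, s < m → Lam s ≠ v := by
  have hK : IsCompact (Icc x y ∩ Lam ⁻¹' {v}) :=
    isCompact_Icc.inter_right (isClosed_singleton.preimage hc)
  obtain ⟨m, hm1, hm2⟩ := hK.exists_isLeast (by
    obtain ⟨s, hs, hv⟩ := hne; exact ⟨s, hs, hv⟩)
  refine ⟨m, hm1.1, hm1.2, fun s hs hsm hv => ?_⟩
  exact absurd (hm2 ⟨hs, hv⟩) (not_le.2 hsm)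

theorem last_eq {Lam : ℝ → ℝ} (hc : Continuous Lam) {x y : ℝ} (v : ℝ)
    (hne : ∃ s ∈ Icc x y, Lam s = v) :
    ∃ m ∈ Icc x y, Lam m = v ∧ ∀ s ∈ Icc x y, m < s → Lam s ≠ v := by
  have hK : IsCompact (Icc x y ∩ Lam ⁻¹' {v}) :=
    isCompact_Icc.inter_right (isClosed_singleton.preimage hc)
  obtain ⟨m, hm1, hm2⟩ := hK.exists_isGreatest (by
    obtain ⟨s, hs, hv⟩ := hne; exact ⟨s, hs, hv⟩)
  refine ⟨m, hm1.1, hm1.2, fun s hs hsm hv => ?_⟩
  exact absurd (hm2 ⟨hs, hv⟩) (not_le.2 hsm)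

theorem pts {lam Lam : ℝ → ℝ} {h al b a2 om : ℝ} (hL : ∀ s, HasDerivAt Lam (lam s) s)
    (hh : 0 < h) (T : Trip Lam h 0 al b a2 om) : ∃ bm bp am ap, al < bm ∧ bm ≤ b ∧ bm ≤ bp ∧
    bp < am ∧ am ≤ ap ∧ ap < om ∧
    (∀ s ∈ Icc al bm, 0 ≤ lam s) ∧ (∀ s, al ≤ s → s < bm → Lam s < Lam bm) ∧
    (∀ s ∈ Icc bm bp, lam s = 0) ∧ (∀ s, bp < s → s ≤ ap → Lam s < Lam bp) ∧
    (∀ r s, bp ≤ r → r ≤ s → s ≤ ap → Lam s ≤ Lam r) ∧ (∀ s ∈ Icc am ap, lam s = 0) ∧
    (∀ s ∈ Icc am ap, Lam s = Lam am) ∧ (∀ s ∈ Icc bp ap, lam s ≤ 0) ∧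
    (∀ s ∈ Icc ap om, 0 ≤ lam s) ∧ Lam ap < Lam om := by
  have hc : Continuous Lam := continuous_iff_continuousAt.2 fun s => (hL s).continuousAt
  have l1 := T.lt1
  have l2 := T.lt2
  have l3 := T.lt3
  have u1 := T.up1
  have u2 := T.down
  have u3 := T.up2
  have m1 : ∀ r s, al ≤ r → r ≤ s → s ≤ b → Lam r ≤ Lam s := fun r s h1 h2 h3 => by
    have := T.near1 r s h1 h2 h3; linarith
  have m2 : ∀ r s, b ≤ r → r ≤ s → s ≤ a2 → Lam s ≤ Lam r := fun r s h1 h2 h3 => by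
    have := T.near2 r s h1 h2 h3; linarith
  have m3 : ∀ r s, a2 ≤ r → r ≤ s → s ≤ om → Lam r ≤ Lam s := fun r s h1 h2 h3 => by
    have := T.near3 r s h1 h2 h3; linarith
  obtain ⟨bm, hbm, ebm, fbm⟩ := first_eq hc (x := al) (y := b) (Lam b) ⟨b, ⟨l1.le, le_rfl⟩, rfl⟩
  obtain ⟨bp, hbp, ebp, fbp⟩ := last_eq hc (x := b) (y := a2) (Lam b) ⟨b, ⟨le_rfl, l2.le⟩, rfl⟩
  obtain ⟨am, ham, eam, fam⟩ := first_eq hc (x := b) (y := a2) (Lam a2)
    ⟨a2, ⟨l2.le, le_rfl⟩, rfl⟩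
  obtain ⟨ap, hap, eap, fap⟩ := last_eq hc (x := a2) (y := om) (Lam a2)
    ⟨a2, ⟨le_rfl, l3.le⟩, rfl⟩
  have h1 : al < bm := by
    rcases hbm.1.lt_or_eq with h1 | h1
    · exact h1
    · rw [← h1] at ebm; linarith
  have h2 : bp < am := by
    by_contra hcon
    have := m2 am bp ham.1 (not_lt.1 hcon) hbp.2
    rw [ebp, eam] at this
    linarith
  have h3 : ap < om := by
    rcases hap.2.lt_or_eq with h1 | h1
    · exact h1
    · rw [h1] at eap; linarith
  -- global bounds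
  have hmax : ∀ s, al ≤ s → s ≤ a2 → Lam s ≤ Lam b := by
    intro s hs1 hs2
    rcases le_total s b with h | h
    · exact m1 s b hs1 h le_rfl
    · exact m2 b s le_rfl h hs2
  have hmin : ∀ s, b ≤ s → s ≤ om → Lam a2 ≤ Lam s := by
    intro s hs1 hs2
    rcases le_total s a2 with h | h
    · exact m2 s a2 hs1 h le_rfl
    · exact m3 a2 s le_rfl h hs2
  have hcb : ∀ s, bm ≤ s → s ≤ bp → Lam s = Lam b := by
    intro s hs1 hs2
    refine le_antisymm (hmax s (hbm.1.trans hs1) (hs2.trans hbp.2)) ?_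
    rcases le_total s b with h | h
    · rw [← ebm]; exact m1 bm s hbm.1 hs1 h
    · rw [← ebp]; exact m2 s bp h hs2 hbp.2
  have hca : ∀ s, am ≤ s → s ≤ ap → Lam s = Lam a2 := by
    intro s hs1 hs2
    refine le_antisymm ?_ (hmin s (ham.1.trans hs1) (hs2.trans hap.2))
    rcases le_total s a2 with h | h
    · rw [← eam]; exact m2 am s ham.1 hs1 h
    · rw [← eap]; exact m3 s ap h hs2 hap.2
  have hza : ∀ s ∈ Icc am ap, lam s = 0 := by
    intro s hs
    have hloc : IsLocalMin Lam s := by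
      have h1 : Icc b om ∈ nhds s := Icc_mem_nhds (by linarith [hs.1, hbp.1]) (by linarith [hs.2])
      filter_upwards [h1] with u hu
      rw [hca s hs.1 hs.2]
      exact hmin u hu.1 hu.2
    exact hloc.hasDerivAt_eq_zero (hL s)
  refine ⟨bm, bp, am, ap, h1, hbm.2, hbm.2.trans hbp.1, h2, ham.2.trans hap.1, h3, ?_, ?_, ?_, ?_,
    ?_, hza, ?_, ?_, ?_, ?_⟩
  · intro s hs
    exact deriv_nonneg hL l1 m1 s ⟨hs.1, hs.2.trans hbm.2⟩
  · intro s hs1 hs2
    rw [ebm]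
    exact lt_of_le_of_ne (hmax s hs1 (by linarith [hbm.2])) (fbm s ⟨hs1, by linarith [hbm.2]⟩ hs2)
  · intro s hs
    have hloc : IsLocalMax Lam s := by
      have h1 : Icc al a2 ∈ nhds s :=
        Icc_mem_nhds (by linarith [hs.1]) (by linarith [hs.2, ham.2])
      filter_upwards [h1] with u hu
      rw [hcb s hs.1 hs.2]
      exact hmax u hu.1 hu.2
    exact hloc.hasDerivAt_eq_zero (hL s)
  · intro s hs1 hs2
    rw [ebp]
    rcases le_total s a2 with h | h
    · exact lt_of_le_of_ne (hmax s (by linarith [hbp.1]) h)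
        (fbp s ⟨by linarith [hbp.1], h⟩ hs1)
    · rw [hca s (ham.2.trans h) hs2]; linarith
  · intro r s hr hrs hs
    rcases le_total s a2 with h | h
    · exact m2 r s (hbp.1.trans hr) hrs h
    · rw [hca s (ham.2.trans h) hs]
      exact hmin r (hbp.1.trans hr) (hrs.trans (hs.trans hap.2))
  · intro s hs
    rw [hca s hs.1 hs.2, eam]
  · intro s hs
    rcases le_total s a2 with h | h
    · exact deriv_nonpos hL l2 m2 s ⟨hbp.1.trans hs.1, h⟩
    · rw [hza s ⟨ham.2.trans h, hs.2⟩]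
  · intro s hs
    exact deriv_nonneg hL l3 m3 s ⟨hap.1.trans hs.1, hs.2⟩
  · rw [eap]; linarith

theorem exPhi {Lam : ℝ → ℝ} (hc : Continuous Lam) {bp y : ℝ}
    (hanti : ∀ r s, bp ≤ r → r ≤ s → s ≤ y → Lam s ≤ Lam r)
    (hno : ∀ s, bp ≤ s → s + Real.pi / 2 ≤ y → Lam (s + Real.pi / 2) ≠ Lam s) :
    ∃ Φ, 0 < Φ ∧ Φ < Real.pi / 2 ∧ ∀ s, bp ≤ s → s + Φ ≤ y → Lam (s + Φ) < Lam s := by
  have hpi := Real.pi_pos
  have hK : IsCompact {p : ℝ × ℝ | (bp ≤ p.1 ∧ p.1 + p.2 ≤ y) ∧ (0 ≤ p.2 ∧ p.2 ≤ Real.pi / 2) ∧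
      Lam p.1 ≤ Lam (p.1 + p.2)} := by
    refine IsCompact.of_isClosed_subset (isCompact_Icc.prod isCompact_Icc :
      IsCompact (Icc bp y ×ˢ Icc (0 : ℝ) (Real.pi / 2))) ?_ ?_
    · refine IsClosed.inter (IsClosed.inter ?_ ?_) (IsClosed.inter (IsClosed.inter ?_ ?_) ?_)
      · exact isClosed_le continuous_const continuous_fst
      · exact isClosed_le (continuous_fst.add continuous_snd) continuous_const
      · exact isClosed_le continuous_const continuous_snd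
      · exact isClosed_le continuous_snd continuous_const
      · exact isClosed_le (hc.comp continuous_fst) (hc.comp (continuous_fst.add continuous_snd))
    · rintro ⟨s, Φ⟩ ⟨⟨h1, h2⟩, ⟨h3, h4⟩, _⟩
      exact ⟨⟨h1, by simp only at *; linarith⟩, ⟨h3, h4⟩⟩
  have hcl : IsClosed (Prod.snd '' {p : ℝ × ℝ | (bp ≤ p.1 ∧ p.1 + p.2 ≤ y) ∧
      (0 ≤ p.2 ∧ p.2 ≤ Real.pi / 2) ∧ Lam p.1 ≤ Lam (p.1 + p.2)}) :=
    (hK.image continuous_snd).isClosed
  have hnot : Real.pi / 2 ∉ Prod.snd '' {p : ℝ × ℝ | (bp ≤ p.1 ∧ p.1 + p.2 ≤ y) ∧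
      (0 ≤ p.2 ∧ p.2 ≤ Real.pi / 2) ∧ Lam p.1 ≤ Lam (p.1 + p.2)} := by
    rintro ⟨⟨s, Φ⟩, ⟨⟨h1, h2⟩, _, h5⟩, h6⟩
    simp only at h1 h2 h5 h6
    subst h6
    exact hno s h1 h2 (le_antisymm (hanti s _ h1 (by linarith) h2) h5)
  obtain ⟨ε, hε, hball⟩ := Metric.isOpen_iff.1 hcl.isOpen_compl _ hnot
  refine ⟨max (Real.pi / 4) (Real.pi / 2 - ε / 2), ?_, ?_, ?_⟩
  · exact lt_of_lt_of_le (by positivity) (le_max_left _ _)
  · exact max_lt (by linarith) (by linarith)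
  · intro s hs1 hs2
    by_contra hcon
    push Not at hcon
    have hmem : max (Real.pi / 4) (Real.pi / 2 - ε / 2) ∈ Metric.ball (Real.pi / 2) ε := by
      rw [Metric.mem_ball, Real.dist_eq, abs_lt]
      constructor
      · have := le_max_right (Real.pi / 4) (Real.pi / 2 - ε / 2); linarith
      · have : max (Real.pi / 4) (Real.pi / 2 - ε / 2) < Real.pi / 2 :=
          max_lt (by linarith) (by linarith)
        linarith
    refine hball hmem ⟨(s, _), ⟨⟨hs1, hs2⟩, ⟨?_, ?_⟩, hcon⟩, rfl⟩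
    · exact le_trans (by positivity) (le_max_left _ _)
    · exact (max_lt (by linarith) (by linarith)).le

theorem phi {lam Lam : ℝ → ℝ} {bp am ap : ℝ} (hL : ∀ s, HasDerivAt Lam (lam s) s)
    (hbm : bp < am) (ham : am ≤ ap)
    (hlt : ∀ s, bp < s → s ≤ ap → Lam s < Lam bp)
    (hanti : ∀ r s, bp ≤ r → r ≤ s → s ≤ ap → Lam s ≤ Lam r)
    (hz : ∀ s ∈ Icc am ap, lam s = 0) (hcst : ∀ s ∈ Icc am ap, Lam s = Lam am) :
    ∃ y Φ, bp < y ∧ y ≤ ap ∧ lam y = 0 ∧ 0 < Φ ∧ Φ < Real.pi / 2 ∧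
      (∀ s, bp ≤ s → s + Φ ≤ y → Lam (s + Φ) < Lam s) ∧
      ((y + Real.pi / 2 ≤ ap ∧ ∀ s ∈ Icc y (y + Real.pi / 2), lam s = 0) ∨
        (y = am ∧ ap - am < Real.pi / 2)) := by
  have hpi := Real.pi_pos
  have hc : Continuous Lam := continuous_iff_continuousAt.2 fun s => (hL s).continuousAt
  by_cases hZ : ∃ j, bp ≤ j ∧ j + Real.pi / 2 ≤ ap ∧ Lam (j + Real.pi / 2) = Lam j
  · have hK : IsCompact (Icc bp (ap - Real.pi / 2) ∩
        {j | Lam (j + Real.pi / 2) = Lam j}) :=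
      isCompact_Icc.inter_right
        (isClosed_eq (hc.comp (continuous_id.add continuous_const)) hc)
    obtain ⟨y, hy1, hy2⟩ := hK.exists_isLeast (by
      obtain ⟨j, h1, h2, h3⟩ := hZ
      exact ⟨j, ⟨h1, by linarith⟩, h3⟩)
    have hyap : y + Real.pi / 2 ≤ ap := by linarith [hy1.1.2]
    have hyL : Lam (y + Real.pi / 2) = Lam y := hy1.2
    have hby : bp < y := by
      rcases hy1.1.1.lt_or_eq with h | h
      · exact h
      · exfalso
        rw [← h] at hyL hyap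
        have := hlt (bp + Real.pi / 2) (by linarith) hyap
        linarith
    have hz2 : ∀ s ∈ Icc y (y + Real.pi / 2), lam s = 0 := by
      refine deriv_zero hL (by linarith) fun s hs => le_antisymm ?_ ?_
      · exact hanti y s hby.le hs.1 (hs.2.trans hyap)
      · rw [← hyL]; exact hanti s _ (hby.le.trans hs.1) hs.2 hyap
    obtain ⟨Φ, h1, h2, h3⟩ := exPhi hc (bp := bp) (y := y)
      (fun r s hr hrs hs => hanti r s hr hrs (by linarith)) (by
        intro s hs1 hs2 hs3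
        have := hy2 ⟨⟨hs1, by linarith⟩, hs3⟩
        linarith)
    exact ⟨y, Φ, hby, by linarith, hz2 y ⟨le_rfl, by linarith⟩, h1, h2, h3,
      Or.inl ⟨hyap, hz2⟩⟩
  · push Not at hZ
    obtain ⟨Φ, h1, h2, h3⟩ := exPhi hc (bp := bp) (y := am)
      (fun r s hr hrs hs => hanti r s hr hrs (hs.trans ham)) (by
        intro s hs1 hs2
        exact hZ s hs1 (hs2.trans ham))
    refine ⟨am, Φ, hbm, ham, hz am ⟨le_rfl, ham⟩, h1, h2, h3, Or.inr ⟨rfl, ?_⟩⟩
    by_contra hcon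
    push Not at hcon
    exact hZ am hbm.le (by linarith) (hcst _ ⟨by linarith, by linarith⟩)

/-- Thresholds. -/
theorem thr {γ κ : ℝ} (hγ : 0 < γ) (hκ : 0 < κ) : ∃ t1 : ℝ, 1 ≤ t1 ∧ ∀ t, t1 ≤ t →
    t ^ 2 ≤ Real.exp (γ * t) ∧ 1 < κ / t * Real.exp (γ * t) := by
  refine ⟨max 1 (max (27 / γ ^ 3) (2 / κ)), le_max_left _ _, fun t ht => ?_⟩
  have h1 : 1 ≤ t := (le_max_left _ _).trans ht
  have h2 : 27 / γ ^ 3 ≤ t := ((le_max_left _ _).trans (le_max_right _ _)).trans ht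
  have h3 : 2 / κ ≤ t := ((le_max_right _ _).trans (le_max_right _ _)).trans ht
  have hg3 : 0 < γ ^ 3 := by positivity
  have h4 : 27 ≤ γ ^ 3 * t := by rw [div_le_iff₀ hg3] at h2; linarith
  have h5 : 2 ≤ κ * t := by rw [div_le_iff₀ hκ] at h3; linarith
  have h0 : 0 ≤ γ * t / 3 := by positivity
  have h6 : (γ * t / 3) ^ 3 ≤ Real.exp (γ * t) := by
    have h7 : γ * t / 3 ≤ Real.exp (γ * t / 3) := by linarith [Real.add_one_le_exp (γ * t / 3)]
    have h8 : Real.exp (γ * t) = Real.exp (γ * t / 3) ^ 3 := by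
      rw [← Real.exp_nat_mul]; congr 1; push_cast; ring
    rw [h8]
    exact pow_le_pow_left₀ h0 h7 3
  have h7 : t ^ 2 ≤ (γ * t / 3) ^ 3 := by
    have h8 : (γ * t / 3) ^ 3 = (γ ^ 3 * t) * t ^ 2 / 27 := by ring
    have h9 : 27 * t ^ 2 ≤ (γ ^ 3 * t) * t ^ 2 := mul_le_mul_of_nonneg_right h4 (by positivity)
    rw [h8]; linarith
  have h8 := h7.trans h6
  refine ⟨h8, ?_⟩
  have h9 : κ / t * t ^ 2 ≤ κ / t * Real.exp (γ * t) :=
    mul_le_mul_of_nonneg_left h8 (by positivity)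
  have h10 : κ / t * t ^ 2 = κ * t := by field_simp
  rw [h10] at h9
  linarith

theorem sys_of_pert {t C : ℝ} {lam k c a th : ℝ → ℝ} {s0 bm om : ℝ} {N : ℝ}
    (P : Pert t C lam k c a th s0 om) (h1 : s0 ≤ bm)
    (hN : ∀ s ∈ Icc s0 bm, |c s| ≤ N) (ht : 0 < t) (htC : 2 * C ≤ t ^ 2) :
    Sys t C N lam k c a th bm om where
  dc := fun s hs => P.dc s ⟨h1.trans hs.1, hs.2⟩
  da := fun s hs => P.da s ⟨h1.trans hs.1, hs.2⟩
  k_cont := P.k_cont
  th_cont := P.th_cont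
  k_le := fun s _ => P.k_le s
  le_k := fun s hs => by
    have := P.le_k s ⟨h1.trans hs.1, hs.2⟩
    have h2 : C / t ^ 2 ≤ 1 / 2 := by
      rw [div_le_div_iff₀ (by positivity) (by norm_num)]; linarith
    linarith
  th_le := fun s hs M hM hr => by
    refine P.th_le s ⟨h1.trans hs.1, hs.2⟩ M fun r hr2 => ?_
    rcases le_total r bm with h | h
    · exact (hN r ⟨hr2.1, h⟩).trans hM
    · exact hr r ⟨h, hr2.2⟩

theorem sys_restrict {t C : ℝ} {lam k c a th : ℝ → ℝ} {x y x' y' : ℝ} {N N' : ℝ}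
    (S : Sys t C N lam k c a th x y) (h1 : x ≤ x') (h2 : y' ≤ y) (hNN : N ≤ N')
    (hN : ∀ s ∈ Icc x x', |c s| ≤ N') :
    Sys t C N' lam k c a th x' y' where
  dc := fun s hs => S.dc s ⟨h1.trans hs.1, hs.2.trans h2⟩
  da := fun s hs => S.da s ⟨h1.trans hs.1, hs.2.trans h2⟩
  k_cont := S.k_cont
  th_cont := S.th_cont
  k_le := fun s hs => S.k_le s ⟨h1.trans hs.1, hs.2.trans h2⟩
  le_k := fun s hs => S.le_k s ⟨h1.trans hs.1, hs.2.trans h2⟩
  th_le := fun s hs M hM hr => by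
    refine S.th_le s ⟨h1.trans hs.1, hs.2.trans h2⟩ M (hNN.trans hM) fun r hr2 => ?_
    rcases le_total r x' with h | h
    · exact (hN r ⟨hr2.1, h⟩).trans hM
    · exact hr r ⟨h, hr2.2⟩

theorem pert_restrict {t C : ℝ} {lam k c a th : ℝ → ℝ} {s0 bm om : ℝ}
    (P : Pert t C lam k c a th s0 om) (h1 : bm ≤ om) : Pert t C lam k c a th s0 bm where
  c0 := P.c0
  a0 := P.a0
  dc := fun s hs => P.dc s ⟨hs.1, hs.2.trans h1⟩
  da := fun s hs => P.da s ⟨hs.1, hs.2.trans h1⟩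
  k_cont := P.k_cont
  th_cont := P.th_cont
  k_le := P.k_le
  le_k := fun s hs => P.le_k s ⟨hs.1, hs.2.trans h1⟩
  th_le := fun s hs => P.th_le s ⟨hs.1, hs.2.trans h1⟩
  a_le := fun s hs => P.a_le s ⟨hs.1, hs.2.trans h1⟩

/-- Polar coordinates. -/
theorem polar {c a x0 x1 : ℝ} (hc : c < 0) (ha : a < 0) (h0 : x0 * |a| ≤ |c|)
    (h1 : |c| ≤ x1 * |a|) (hx1 : x1 ≤ 1) :
    ∃ N θ : ℝ, 0 < N ∧ c = -N * Real.sin θ ∧ a = -N * Real.cos θ ∧ x0 / 2 ≤ θ ∧ θ ≤ x1 ∧
      |a| ≤ N := by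
  have hapos : 0 < |a| := abs_pos.2 ha.ne
  have hcpos : 0 < |c| := abs_pos.2 hc.ne
  obtain ⟨x, hx⟩ : ∃ x, x = |c| / |a| := ⟨_, rfl⟩
  have hxpos : 0 < x := hx ▸ div_pos hcpos hapos
  have hxc : |c| = x * |a| := by rw [hx]; field_simp
  have hx0 : x0 ≤ x := by rw [hx, le_div_iff₀ hapos]; exact h0
  have hx1' : x ≤ x1 := by rw [hx, div_le_iff₀ hapos]; exact h1
  have hs : 0 < Real.sqrt (1 + x ^ 2) := Real.sqrt_pos.2 (by positivity)
  have hs1 : 1 ≤ Real.sqrt (1 + x ^ 2) := Real.one_le_sqrt.2 (by nlinarith)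
  have hs2 : Real.sqrt (1 + x ^ 2) ≤ 2 := by
    rw [Real.sqrt_le_left (by norm_num)]; nlinarith
  have hsin := Real.sin_arctan x
  have hcos := Real.cos_arctan x
  have hθpos : 0 < Real.arctan x := by
    rw [← Real.arctan_zero]; exact Real.arctan_strictMono hxpos
  refine ⟨|a| * Real.sqrt (1 + x ^ 2), Real.arctan x, by positivity, ?_, ?_, ?_, ?_, ?_⟩
  · rw [hsin]
    have : -(|a| * Real.sqrt (1 + x ^ 2)) * (x / Real.sqrt (1 + x ^ 2)) = -(x * |a|) := by
      field_simp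
    rw [this, ← hxc, abs_of_neg hc]; ring
  · rw [hcos]
    have : -(|a| * Real.sqrt (1 + x ^ 2)) * (1 / Real.sqrt (1 + x ^ 2)) = -|a| := by
      field_simp
    rw [this, abs_of_neg ha]; ring
  · have h2 : x / Real.sqrt (1 + x ^ 2) < Real.arctan x := by
      rw [← hsin]; exact Real.sin_lt hθpos
    have h3 : x / 2 ≤ x / Real.sqrt (1 + x ^ 2) :=
      div_le_div_of_nonneg_left hxpos.le hs hs2
    linarith
  · have h2 : Real.arctan x ≤ x := by
      have h3 := Real.le_tan hθpos.le (Real.arctan_lt_pi_div_two x)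
      rwa [Real.tan_arctan] at h3
    exact h2.trans hx1'
  · nlinarith

theorem sqrt_le_self' {t : ℝ} (ht : 1 ≤ t) : Real.sqrt t ≤ t := by
  rw [Real.sqrt_le_left (by linarith)]; nlinarith

/-- **Lemma B.** -/
theorem main : S_B1 → S_ROT → S_DN → S_UP → S_LB := by
  intro hB1 hROT hDN hUP h al b a2 om lam Lam hlam hL hh T
  have hpi := Real.pi_pos
  have hlc : Continuous lam := hlam.continuous
  obtain ⟨bm, bp, am, ap, h1, h2, h3, h4, h5, h6, lam1, Lam1, lam2, Lam2, anti, lam3, Lam3, lam4,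
    lam5, Lam5⟩ := pts hL hh T
  obtain ⟨y, Φ, hy1, hy2, hy3, hΦ0, hΦ1, hΦ, hcase⟩ := phi hL h4 h5 Lam2 anti lam3 Lam3
  obtain ⟨r, hr0, hr1, hr2⟩ : ∃ r : ℝ, 0 < r ∧ r ≤ 1 / 10 ∧
      (bp - bm < Real.pi → 3 / 2 * r ≤ (Real.pi - (bp - bm)) / 2) := by
    by_cases hF : bp - bm < Real.pi
    · refine ⟨min (1 / 10) ((Real.pi - (bp - bm)) / 3), lt_min (by norm_num) (by linarith),
        min_le_left _ _, fun _ => ?_⟩
      have := min_le_right (1 / 10 : ℝ) ((Real.pi - (bp - bm)) / 3)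
      linarith
    · exact ⟨1 / 10, by norm_num, le_rfl, fun h => absurd h hF⟩
  obtain ⟨s0, hs0, hs1, hs2⟩ : ∃ s0, al ≤ s0 ∧ s0 < bm ∧ bm - s0 ≤ r :=
    ⟨max al (bm - r), le_max_left _ _, max_lt h1 (by linarith),
      by linarith [le_max_right al (bm - r)]⟩
  refine ⟨s0, hs0, lt_of_lt_of_le hs1 h2, fun C hC => ?_⟩
  obtain ⟨tB, g, γ, htB, hg, hγ, hB⟩ := hB1 s0 bm lam Lam hlam hL hs1 (by linarith)
    (fun s hs => lam1 s ⟨hs0.trans hs.1, hs.2⟩) (lam2 bm ⟨le_rfl, h3⟩) (Lam1 s0 hs0 hs1) C hC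
  have common : ∀ t, max tB (2 * C) ≤ t → ∀ k c a th, Pert t C lam k c a th s0 om →
      ∃ N θ : ℝ, 0 < N ∧ Real.exp (γ * t) ≤ N ∧ c bm = -N * Real.sin θ ∧
        a bm = -N * Real.cos θ ∧ g / 2 / Real.sqrt t ≤ θ ∧ θ ≤ 3 / 2 * r ∧
        Sys t C N lam k c a th bm om ∧ g / Real.sqrt t * Real.exp (γ * t) ≤ - c bm := by
    intro t ht k c a th P
    have ht1 : 1 ≤ t := htB.trans ((le_max_left _ _).trans ht)
    have ht2 : 2 * C ≤ t := (le_max_right _ _).trans ht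
    have hsq : 0 < Real.sqrt t := Real.sqrt_pos.2 (by linarith)
    obtain ⟨q1, q2, q3, q4, q5, q6⟩ := hB t ((le_max_left _ _).trans ht) k c a th
      (pert_restrict P (by linarith))
    have hapos : 0 ≤ |a bm| := abs_nonneg _
    have q4' : |c bm| ≤ 3 / 2 * r * |a bm| := by
      refine q4.trans (mul_le_mul_of_nonneg_right ?_ hapos)
      linarith
    obtain ⟨N, θ, n1, n2, n3, n4, n5, n6⟩ := polar q1 q2 q3 q4' (by linarith)
    refine ⟨N, θ, n1, q5.trans n6, n2, n3, ?_, n5, ?_, ?_⟩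
    · have h7 : g / 2 / Real.sqrt t = g / Real.sqrt t / 2 := by ring
      rw [h7]; exact n4
    · refine sys_of_pert P hs1.le ?_ (by linarith) (by nlinarith)
      intro s hs
      have h7 := q6 s hs
      have h8 : 3 / 2 * r * |a bm| ≤ 3 / 20 * |a bm| :=
        mul_le_mul_of_nonneg_right (by linarith) hapos
      linarith
    · rw [abs_of_neg q1] at q3
      exact (mul_le_mul_of_nonneg_left q5 (by positivity)).trans q3
  by_cases hF : bp - bm < Real.pi
  · have hr3 := hr2 hF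
    obtain ⟨G, hG⟩ : ∃ G, G = (Real.pi - (bp - bm)) / 2 := ⟨_, rfl⟩
    obtain ⟨tD, c1, C2, htD, hc1, hC2, hD⟩ := hDN bp y Φ lam Lam hlam hL hy1
      (fun s hs => lam4 s ⟨hs.1, hs.2.trans hy2⟩) hy3
      (fun s hs => Lam2 s hs.1 (hs.2.trans hy2)) hΦ0 hΦ1 hΦ C (g / 2) G hC (by positivity)
      (by rw [hG]; linarith) (by rw [hG]; linarith)
    have hyom : y ≤ om := by linarith
    have common2 : ∀ t, max (max tB (2 * C)) tD ≤ t → ∀ k c a th, Pert t C lam k c a th s0 om →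
        ∃ N, 0 < N ∧ Real.exp (γ * t) ≤ N ∧ Sys t C (C2 * N) lam k c a th y om ∧ c y < 0 ∧
          |c y| ≤ C2 * N ∧ c1 ^ 2 / t * N ≤ a y ∧ a y ≤ C2 * |c y| := by
      intro t ht k c a th P
      obtain ⟨N, θ, n1, n2, n3, n4, n5, n6, S, n7⟩ := common t ((le_max_left _ _).trans ht)
        k c a th P
      have htD' : tD ≤ t := (le_max_right _ _).trans ht
      have ht1 : 1 ≤ t := htD.trans htD'
      have hsq : 0 < Real.sqrt t := Real.sqrt_pos.2 (by linarith)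
      have hcbm : |c bm| ≤ N := by
        rw [n3, abs_mul, abs_neg, abs_of_pos n1]
        have := Real.abs_sin_le_one θ
        nlinarith
      have hrot := hROT t C N bm bp lam k c a th (by linarith) h3 lam2
        (sys_restrict S le_rfl (by linarith) le_rfl (by
          intro s hs
          have : s = bm := le_antisymm hs.2 hs.1
          rw [this]; exact hcbm))
      have hrc : ∀ s ∈ Icc bm bp, c s = -N * Real.sin (θ + (s - bm)) := by
        intro s hs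
        rw [(hrot s hs).1, n3, n4, Real.sin_add]; ring
      have hra : ∀ s ∈ Icc bm bp, a s = -N * Real.cos (θ + (s - bm)) := by
        intro s hs
        rw [(hrot s hs).2, n3, n4, Real.cos_add]; ring
      have hcN : ∀ s ∈ Icc bm bp, |c s| ≤ N := by
        intro s hs
        rw [hrc s hs, abs_mul, abs_neg, abs_of_pos n1]
        have := Real.abs_sin_le_one (θ + (s - bm))
        nlinarith
      have S1 : Sys t C N lam k c a th bp om := sys_restrict S h3 le_rfl le_rfl hcN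
      have S2 : Sys t C N lam k c a th bp y := by
        refine sys_restrict S1 le_rfl hyom le_rfl ?_
        intro s hs
        have : s = bp := le_antisymm hs.2 hs.1
        rw [this]; exact hcN bp ⟨h3, le_rfl⟩
      obtain ⟨d1, d2, d3, d4⟩ := hD t htD' k c a th N (θ + (bp - bm)) n1 S2
        (by linarith) (by rw [hG]; linarith) (hrc bp ⟨h3, le_rfl⟩) (hra bp ⟨h3, le_rfl⟩)
      refine ⟨N, n1, n2, ?_, (d1 y ⟨hy1.le, le_rfl⟩).1, (d1 y ⟨hy1.le, le_rfl⟩).2, ?_, d4⟩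
      · exact sys_restrict S1 hy1.le le_rfl (by nlinarith) fun s hs => (d1 s hs).2
      · have h7 : c1 ^ 2 / t * N = c1 / Real.sqrt t * (c1 / Real.sqrt t * N) := by
          have h8 : t = Real.sqrt t * Real.sqrt t := (Real.mul_self_sqrt (by linarith)).symm
          conv_lhs => rw [h8]
          field_simp
        rw [h7]
        exact (mul_le_mul_of_nonneg_left d2 (by positivity)).trans d3
    rcases hcase with ⟨hy4, lamz⟩ | ⟨hy4, hF2⟩
    · obtain ⟨t2, ht2, hthr⟩ := thr hγ (κ := c1 ^ 2) (by positivity)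
      refine ⟨max t2 (max (max tB (2 * C)) tD), le_max_of_le_left ht2, fun t ht k c a th P => ?_⟩
      obtain ⟨N, n1, n2, S, n3, n4, n5, n6⟩ := common2 t ((le_max_right _ _).trans ht) k c a th P
      have ht1 : 1 ≤ t := ht2.trans ((le_max_left _ _).trans ht)
      have hthr' := (hthr t ((le_max_left _ _).trans ht)).2
      have hrot := hROT t C (C2 * N) y (y + Real.pi / 2) lam k c a th (by linarith)
        (by linarith) lamz (sys_restrict S le_rfl (by linarith) le_rfl (by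
          intro s hs
          have : s = y := le_antisymm hs.2 hs.1
          rw [this]; exact n4)) (y + Real.pi / 2) ⟨by linarith, le_rfl⟩
      refine ⟨y + Real.pi / 2, ⟨by linarith, by linarith⟩, ?_⟩
      rw [hrot.1]
      have h7 : y + Real.pi / 2 - y = Real.pi / 2 := by ring
      rw [h7, Real.cos_pi_div_two, Real.sin_pi_div_two, mul_zero, zero_add, mul_one]
      have h8 : c1 ^ 2 / t * Real.exp (γ * t) ≤ c1 ^ 2 / t * N :=
        mul_le_mul_of_nonneg_left n2 (by positivity)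
      linarith
    · subst hy4
      obtain ⟨t2, ht2, hthr⟩ := thr hγ (κ := 1) one_pos
      have hcos : 0 < Real.cos (ap - y) :=
        Real.cos_pos_of_mem_Ioo ⟨by linarith, hF2⟩
      have hC2pos : 0 < C2 := by linarith
      obtain ⟨tU, htU, hU⟩ := hUP ap om lam Lam hlc hL h6 lam5 Lam5 C
        (Real.cos (ap - y) * c1 ^ 2 / ((1 + C2) * C2)) hC (by positivity)
      refine ⟨max t2 (max tU (max (max tB (2 * C)) tD)), le_max_of_le_left ht2,
        fun t ht k c a th P => ?_⟩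
      have htt2 : t2 ≤ t := (le_max_left _ _).trans ht
      have httU : tU ≤ t := ((le_max_left _ _).trans (le_max_right _ _)).trans ht
      obtain ⟨N, n1, n2, S, n3, n4, n5, n6⟩ := common2 t
        (((le_max_right _ _).trans (le_max_right _ _)).trans ht) k c a th P
      have ht1 : 1 ≤ t := ht2.trans htt2
      have hthr' := (hthr t htt2).1
      have hrot := hROT t C (C2 * N) y ap lam k c a th (by linarith) h5 lam3
        (sys_restrict S le_rfl (by linarith) le_rfl (by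
          intro s hs
          have : s = y := le_antisymm hs.2 hs.1
          rw [this]; exact n4))
      have hapos : 0 ≤ a y := le_trans (by positivity) n5
      have hcs : ∀ s ∈ Icc y ap, |c s| ≤ (1 + C2) * C2 * N := by
        intro s hs
        rw [(hrot s hs).1]
        have e1 : |c y * Real.cos (s - y)| ≤ |c y| := by
          rw [abs_mul]
          exact mul_le_of_le_one_right (abs_nonneg _) (Real.abs_cos_le_one _)
        have e2 : |a y * Real.sin (s - y)| ≤ a y := by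
          rw [abs_mul, abs_of_nonneg hapos]
          exact mul_le_of_le_one_right hapos (Real.abs_sin_le_one _)
        have e3 := abs_add_le (c y * Real.cos (s - y)) (a y * Real.sin (s - y))
        have e4 : (1 + C2) * |c y| ≤ (1 + C2) * (C2 * N) :=
          mul_le_mul_of_nonneg_left n4 (by linarith)
        nlinarith
      have hsin : 0 ≤ Real.sin (ap - y) :=
        Real.sin_nonneg_of_nonneg_of_le_pi (by linarith) (by linarith)
      have haap : Real.cos (ap - y) * (c1 ^ 2 / t * N) ≤ a ap := by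
        rw [(hrot ap ⟨h5, le_rfl⟩).2]
        have e1 : c y * Real.sin (ap - y) ≤ 0 := mul_nonpos_of_nonpos_of_nonneg n3.le hsin
        have e2 := mul_le_mul_of_nonneg_left n5 hcos.le
        linarith
      have S4 : Sys t C ((1 + C2) * C2 * N) lam k c a th ap om := by
        refine sys_restrict S h5 le_rfl ?_ hcs
        have : 0 < C2 * N := by positivity
        nlinarith
      obtain ⟨s, hs, hs3⟩ := hU t httU k c a th ((1 + C2) * C2 * N) (by
          have e1 : 1 ≤ (1 + C2) * C2 := by nlinarith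
          have e2 : 1 * N ≤ (1 + C2) * C2 * N := mul_le_mul_of_nonneg_right e1 n1.le
          linarith) S4 (by
          refine le_trans (le_of_eq ?_) haap
          field_simp) (by
          have := abs_le.1 (hcs ap ⟨h5, le_rfl⟩)
          exact this.1)
      exact ⟨s, ⟨by linarith [hs.1], hs.2⟩, hs3⟩
  · push Not at hF
    obtain ⟨t2, ht2, hthr⟩ := thr hγ hg
    refine ⟨max t2 (max tB (2 * C)), le_max_of_le_left ht2, fun t ht k c a th P => ?_⟩
    obtain ⟨N, θ, n1, n2, n3, n4, n5, n6, S, n7⟩ := common t ((le_max_right _ _).trans ht)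
      k c a th P
    have ht1 : 1 ≤ t := ht2.trans ((le_max_left _ _).trans ht)
    have hsq : 0 < Real.sqrt t := Real.sqrt_pos.2 (by linarith)
    have hthr' := (hthr t ((le_max_left _ _).trans ht)).2
    have hcbm : |c bm| ≤ N := by
      rw [n3, abs_mul, abs_neg, abs_of_pos n1]
      have := Real.abs_sin_le_one θ
      nlinarith
    have hrot := hROT t C N bm bp lam k c a th (by linarith) h3 lam2
      (sys_restrict S le_rfl (by linarith) le_rfl (by
        intro s hs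
        have : s = bm := le_antisymm hs.2 hs.1
        rw [this]; exact hcbm)) (bm + Real.pi) ⟨by linarith, by linarith⟩
    refine ⟨bm + Real.pi, ⟨by linarith, by linarith⟩, ?_⟩
    rw [hrot.1]
    have h7 : bm + Real.pi - bm = Real.pi := by ring
    rw [h7, Real.cos_pi, Real.sin_pi, mul_zero, add_zero, mul_neg, mul_one]
    have h8 : g / t ≤ g / Real.sqrt t :=
      div_le_div_of_nonneg_left hg.le hsq (sqrt_le_self' ht1)
    have h9 := mul_le_mul_of_nonneg_right h8 (Real.exp_pos (γ * t)).le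
    linarith

end Pool.Agent.W304.LGLB
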